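import Pool.Agent.Helper90.ZD.Defs

/-!
Project ZD (MP_4ab349_nt): P1, divisibility by a power of the sum of the variables.
-/

open Finset

namespace Pool.Agent.Helper24.ZD

open Pool.Agent.Helper90.ZD

/-- the form as a polynomial -/
noncomputable def hpoly {n : ℕ} (H : (Fin n → ℕ) → ℂ) (C : ℕ) : MvPolynomial (Fin n) ℂ :=
  ∑ c ∈ Sig n C, MvPolynomial.monomial (Finsupp.equivFunOnFinite.symm c)
    ((Nat.multinomial Finset.univ c : ℂ) * H c)

theorem hpoly_eval {n : ℕ} (H : (Fin n → ℕ) → ℂ) (C : ℕ) (x : Fin n → ℂ) :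
    MvPolynomial.eval x (hpoly H C) = hval H C x := by
  unfold hpoly hval
  rw [map_sum]
  refine Finset.sum_congr rfl (fun c _ => ?_)
  rw [MvPolynomial.eval_monomial, Finsupp.prod_fintype _ _ (fun i => pow_zero _)]
  rfl

theorem hpoly_one {n : ℕ} (C : ℕ) :
    hpoly (fun _ : Fin n → ℕ => (1 : ℂ)) C = (∑ i, MvPolynomial.X i) ^ C := by
  unfold hpoly
  rw [Finset.sum_pow_eq_sum_piAntidiag]
  refine Finset.sum_congr rfl (fun c _ => ?_)
  rw [mul_one, MvPolynomial.monomial_eq, Finsupp.prod_fintype _ _ (fun i => pow_zero _)]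
  simp

theorem hpoly_mul {n : ℕ} (H : (Fin n → ℕ) → ℂ) (C : ℕ) (i : Fin n) :
    hpoly (fun c => (c i : ℂ) * H c) C = MvPolynomial.X i * MvPolynomial.pderiv i (hpoly H C) := by
  unfold hpoly
  rw [map_sum, Finset.mul_sum]
  refine Finset.sum_congr rfl (fun c _ => ?_)
  rw [MvPolynomial.X_mul_pderiv_monomial, nsmul_eq_mul]
  have : ((Finsupp.equivFunOnFinite.symm c) i : MvPolynomial (Fin n) ℂ)
      = MvPolynomial.C (c i : ℂ) := by
    simp
  rw [this, MvPolynomial.C_mul_monomial]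
  congr 1
  ring

theorem dvd_step {n m : ℕ} (f : MvPolynomial (Fin n) ℂ) (i : Fin n)
    (h : (∑ j, MvPolynomial.X j : MvPolynomial (Fin n) ℂ) ^ (m + 1) ∣ f) :
    (∑ j, MvPolynomial.X j : MvPolynomial (Fin n) ℂ) ^ m ∣
      MvPolynomial.X i * MvPolynomial.pderiv i f := by
  obtain ⟨g, rfl⟩ := h
  refine Dvd.dvd.mul_left ?_ _
  rw [Derivation.leibniz, Derivation.leibniz_pow]
  refine dvd_add ?_ ?_
  · rw [smul_eq_mul]
    exact Dvd.dvd.mul_right (pow_dvd_pow _ (Nat.le_succ m)) _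
  · rw [smul_eq_mul, Nat.add_sub_cancel]
    refine Dvd.dvd.mul_left ?_ _
    rw [nsmul_eq_mul, smul_eq_mul]
    exact Dvd.dvd.mul_left (Dvd.dvd.mul_right dvd_rfl _) _

theorem dvd_mono {n : ℕ} (k : ℕ) : ∀ (s : Fin n → ℕ), ∑ i, s i = k → ∀ C : ℕ, k ≤ C →
    (∑ j, MvPolynomial.X j : MvPolynomial (Fin n) ℂ) ^ (C - k) ∣
      hpoly (fun c => ∏ i, (c i : ℂ) ^ s i) C := by
  classical
  induction k with
  | zero =>
    intro s hs C _
    have h0 : ∀ i, s i = 0 := by
      intro i
      exact (Finset.sum_eq_zero_iff.1 hs) i (Finset.mem_univ i)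
    have : (fun c : Fin n → ℕ => ∏ i, (c i : ℂ) ^ s i) = fun _ => (1 : ℂ) := by
      funext c
      simp [h0]
    rw [this, hpoly_one]
    exact pow_dvd_pow _ (Nat.sub_le _ _)
  | succ k ih =>
    intro s hs C hC
    obtain ⟨i, hi⟩ : ∃ i, s i ≠ 0 := by
      by_contra hcon
      push_neg at hcon
      rw [Finset.sum_eq_zero (fun i _ => hcon i)] at hs
      omega
    set s' := Function.update s i (s i - 1) with hs'
    have h1 : ∑ j, s' j = k := by
      have h2 := Finset.add_sum_erase Finset.univ s (Finset.mem_univ i)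
      have h3 := Finset.add_sum_erase Finset.univ s' (Finset.mem_univ i)
      have h4 : ∑ j ∈ Finset.univ.erase i, s' j = ∑ j ∈ Finset.univ.erase i, s j := by
        refine Finset.sum_congr rfl (fun j hj => ?_)
        rw [hs', Function.update_of_ne (Finset.ne_of_mem_erase hj)]
      have h5 : s' i = s i - 1 := by rw [hs', Function.update_self]
      omega
    have h6 : (fun c : Fin n → ℕ => ∏ j, (c j : ℂ) ^ s j)
        = fun c => (c i : ℂ) * ∏ j, (c j : ℂ) ^ s' j := by
      funext c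
      rw [← Finset.mul_prod_erase Finset.univ (fun j => (c j : ℂ) ^ s j) (Finset.mem_univ i),
        ← Finset.mul_prod_erase Finset.univ (fun j => (c j : ℂ) ^ s' j) (Finset.mem_univ i),
        ← mul_assoc]
      congr 1
      · have h5 : s' i = s i - 1 := by rw [hs', Function.update_self]
        rw [h5, ← pow_succ', Nat.sub_add_cancel (Nat.one_le_iff_ne_zero.2 hi)]
      · refine Finset.prod_congr rfl (fun j hj => ?_)
        rw [hs', Function.update_of_ne (Finset.ne_of_mem_erase hj)]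
    rw [h6, hpoly_mul]
    refine dvd_step _ i ?_
    have h7 : C - (k + 1) + 1 = C - k := by omega
    rw [h7]
    exact ih s' h1 C (by omega)

/-- P1: the form of a polynomial of degree `≤ D` is divisible by `(∑ x i) ^ (C - D)`. -/
theorem hval_div {n C D : ℕ} (p : MvPolynomial (Fin n) ℂ) (hp : p.totalDegree ≤ D)
    (hDC : D ≤ C) :
    ∃ A : MvPolynomial (Fin n) ℂ, ∀ x : Fin n → ℂ,
      hval (pv p) C x = (∑ i, x i) ^ (C - D) * MvPolynomial.eval x A := by
  have h1 : hpoly (pv p) C = ∑ s ∈ p.support, MvPolynomial.C (p.coeff s) *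
      hpoly (fun c => ∏ i, (c i : ℂ) ^ s i) C := by
    unfold hpoly
    simp_rw [Finset.mul_sum]
    rw [Finset.sum_comm]
    refine Finset.sum_congr rfl (fun c _ => ?_)
    simp_rw [MvPolynomial.C_mul_monomial]
    rw [← map_sum]
    congr 1
    unfold pv
    rw [MvPolynomial.eval_eq', Finset.mul_sum]
    refine Finset.sum_congr rfl (fun s _ => ?_)
    ring
  have h2 : (∑ j, MvPolynomial.X j : MvPolynomial (Fin n) ℂ) ^ (C - D) ∣ hpoly (pv p) C := by
    rw [h1]
    refine Finset.dvd_sum (fun s hs => Dvd.dvd.mul_left ?_ _)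
    have h3 : ∑ i, s i ≤ D := by
      have h4 := MvPolynomial.le_totalDegree hs
      rw [Finsupp.sum_fintype _ _ (fun _ => rfl)] at h4
      exact h4.trans hp
    exact (pow_dvd_pow _ (by omega)).trans (dvd_mono _ (fun i => s i) rfl C (by omega))
  obtain ⟨A, hA⟩ := h2
  refine ⟨A, fun x => ?_⟩
  rw [← hpoly_eval, hA, map_mul, map_pow, map_sum]
  simp

end Pool.Agent.Helper24.ZD
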