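import Pool.Agent.Helper90.ZD.Defs

/-!
Project ZD (MP_4ab349_nt): P4, decay far from the point with equal coordinates.
-/

open Finset

namespace Pool.Agent.Helper24.ZD

open Pool.Agent.Helper90.ZD

theorem exp_three_half : Real.exp (3 / 2) ≤ 5 := by
  have h1 : Real.exp 1 < 2.7182818286 := Real.exp_one_lt_d9
  have h2 : Real.exp (1 / 2) * Real.exp (1 / 2) = Real.exp 1 := by
    rw [← Real.exp_add]; norm_num
  have h3 : Real.exp (1 / 2) ≤ 1.65 := by
    by_contra hcon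
    push Not at hcon
    nlinarith
  have h4 : Real.exp (3 / 2) = Real.exp 1 * Real.exp (1 / 2) := by
    rw [← Real.exp_add]; norm_num
  rw [h4]
  nlinarith [Real.exp_pos (1 / 2), Real.exp_pos 1]

/-- growth of a form bounded on the unit sphere -/
theorem form_le {n : ℕ} (C : ℕ) (h : (Fin n → ℂ) → ℂ)
    (hhom : ∀ (b : ℂ) (x : Fin n → ℂ), h (fun i => b * x i) = b ^ C * h x)
    (Mh : ℝ) (hM : ∀ x : Fin n → ℂ, ∑ i, ‖x i‖ ^ 2 = 1 → ‖h x‖ ≤ Mh)
    (z : Fin n → ℂ) (ρ : ℝ) (hρ : 0 < ρ) (hz : ∑ i, ‖z i‖ ^ 2 = ρ ^ 2) :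
    ‖h z‖ ≤ ρ ^ C * Mh := by
  have hρ' : (ρ : ℂ) ≠ 0 := by exact_mod_cast hρ.ne'
  have h1 : z = fun i => (ρ : ℂ) * ((ρ : ℂ)⁻¹ * z i) := by
    funext i
    rw [← mul_assoc, mul_inv_cancel₀ hρ', one_mul]
  have h2 : ∑ i, ‖(ρ : ℂ)⁻¹ * z i‖ ^ 2 = 1 := by
    simp_rw [norm_mul, mul_pow, ← Finset.mul_sum, hz, norm_inv, Complex.norm_real,
      Real.norm_eq_abs, abs_of_pos hρ]
    rw [inv_pow]
    field_simp
  have h3 := hM _ h2
  rw [h1, hhom, norm_mul, norm_pow, Complex.norm_real, Real.norm_eq_abs, abs_of_pos hρ]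
  exact mul_le_mul_of_nonneg_left h3 (by positivity)

/-- Pythagoras for `w * 1 + y` with `∑ y = 0` -/
theorem pyth {n : ℕ} (y : Fin n → ℂ) (hy : ∑ i, y i = 0) (w : ℂ) :
    ∑ i, ‖w + y i‖ ^ 2 = n * ‖w‖ ^ 2 + ∑ i, ‖y i‖ ^ 2 := by
  have h1 : ∀ i, ‖w + y i‖ ^ 2 = ‖w‖ ^ 2 + ‖y i‖ ^ 2 + 2 * (w.re * (y i).re + w.im * (y i).im) := by
    intro i
    rw [← Complex.normSq_eq_norm_sq, ← Complex.normSq_eq_norm_sq, ← Complex.normSq_eq_norm_sq,
      Complex.normSq_apply, Complex.normSq_apply, Complex.normSq_apply, Complex.add_re,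
      Complex.add_im]
    ring
  have hre : ∑ i, (y i).re = 0 := by
    have := congrArg Complex.re hy
    simpa using this
  have him : ∑ i, (y i).im = 0 := by
    have := congrArg Complex.im hy
    simpa using this
  simp_rw [h1]
  rw [Finset.sum_add_distrib, Finset.sum_add_distrib, ← Finset.mul_sum, Finset.sum_add_distrib,
    ← Finset.mul_sum, ← Finset.mul_sum, hre, him]
  simp

/-- P4: decay far from the point `(1, ..., 1)`. -/
theorem decay {n : ℕ} (hn : 0 < n) (C D : ℕ) (hDC : D ≤ C) (κ : ℝ) (hκ : 0 < κ)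
    (hκ' : κ ≤ 1 / 2) (hD : κ * C ≤ (C : ℝ) - D)
    (h : (Fin n → ℂ) → ℂ) (A : MvPolynomial (Fin n) ℂ)
    (hA : ∀ x, h x = (∑ i, x i) ^ (C - D) * MvPolynomial.eval x A)
    (hhom : ∀ (b : ℂ) (x : Fin n → ℂ), h (fun i => b * x i) = b ^ C * h x)
    (Mh : ℝ) (hM : ∀ x : Fin n → ℂ, ∑ i, ‖x i‖ ^ 2 = 1 → ‖h x‖ ≤ Mh)
    (x : Fin n → ℂ) (hx : ∑ i, ‖x i‖ ^ 2 = 1) (hl : ‖∑ i, x i‖ ^ 2 ≤ n * κ / 25) :
    ‖h x‖ ≤ Real.exp (-(κ * C)) * Mh := by
  have hMh : 0 ≤ Mh := (norm_nonneg _).trans (hM x hx)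
  have hnr : (0 : ℝ) < n := by exact_mod_cast hn
  have hnc : (n : ℂ) ≠ 0 := by exact_mod_cast hn.ne'
  set s : ℂ := ∑ i, x i with hs
  set a : ℂ := s / n with ha
  set y : Fin n → ℂ := fun i => x i - a with hy
  have hy0 : ∑ i, y i = 0 := by
    simp only [hy, Finset.sum_sub_distrib, Finset.sum_const, Finset.card_univ, Fintype.card_fin,
      nsmul_eq_mul, ← hs, ha]
    field_simp
    ring
  have hpx := pyth y hy0 a
  have hxy : ∀ i, a + y i = x i := fun i => by simp [hy]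
  simp_rw [hxy] at hpx
  rw [hx] at hpx
  set r2 : ℝ := ∑ i, ‖y i‖ ^ 2 with hr2
  have ha2 : (n : ℝ) * ‖a‖ ^ 2 = ‖s‖ ^ 2 / n := by
    rw [ha, norm_div, Complex.norm_natCast]
    field_simp
  have hs2 : ‖s‖ ^ 2 / n ≤ κ / 25 := by
    rw [div_le_iff₀ hnr]
    linarith
  have hr2a : 1 / 25 ≤ r2 := by
    rw [ha2] at hpx
    linarith
  have hr2b : r2 ≤ 1 := by
    have : 0 ≤ (n : ℝ) * ‖a‖ ^ 2 := by positivity
    linarith
  set r : ℝ := Real.sqrt r2 with hr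
  have hrr : r ^ 2 = r2 := Real.sq_sqrt (by linarith)
  have hr0 : 0 < r := Real.sqrt_pos.2 (by linarith)
  have hr1 : r ≤ 1 := by
    have : r ^ 2 ≤ 1 := by rw [hrr]; exact hr2b
    nlinarith
  set R : ℝ := r * Real.sqrt (κ / n) with hR
  have hκn : 0 < κ / n := by positivity
  have hR0 : 0 < R := mul_pos hr0 (Real.sqrt_pos.2 hκn)
  have hR2 : (n : ℝ) * R ^ 2 = r ^ 2 * κ := by
    rw [hR, mul_pow, Real.sq_sqrt hκn.le]
    field_simp
  set ρ : ℝ := r * Real.sqrt (1 + κ) with hρ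
  have hρ0 : 0 < ρ := mul_pos hr0 (Real.sqrt_pos.2 (by linarith))
  have hρ2 : ρ ^ 2 = r ^ 2 * (1 + κ) := by
    rw [hρ, mul_pow, Real.sq_sqrt (show (0 : ℝ) ≤ 1 + κ by linarith)]
  -- the polynomial in one variable
  set G : ℂ → ℂ := fun w => MvPolynomial.eval (fun i => w + y i) A with hG
  have hGd : Differentiable ℂ G := by
    have : G = fun w => ∑ d ∈ A.support, A.coeff d * ∏ i, (w + y i) ^ d i := by
      funext w
      simp only [hG]
      rw [MvPolynomial.eval_eq']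
    rw [this]
    fun_prop
  have hsum : ∀ w : ℂ, ∑ i, (w + y i) = n * w := by
    intro w
    rw [Finset.sum_add_distrib, hy0, add_zero, Finset.sum_const, Finset.card_univ,
      Fintype.card_fin, nsmul_eq_mul]
  have hhG : ∀ w : ℂ, h (fun i => w + y i) = (n * w) ^ (C - D) * G w := by
    intro w
    rw [hA, hsum]
  have hbd : ∀ w : ℂ, ‖w‖ = R → ‖G w‖ ≤ ρ ^ C * Mh / (n * R) ^ (C - D) := by
    intro w hw
    have h1 : ∑ i, ‖w + y i‖ ^ 2 = ρ ^ 2 := by
      rw [pyth y hy0 w, hw, ← hr2, hR2, hρ2, ← hrr]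
      ring
    have h2 := form_le C h hhom Mh hM (fun i => w + y i) ρ hρ0 h1
    rw [hhG, norm_mul, norm_pow, norm_mul, Complex.norm_natCast, hw] at h2
    rw [le_div_iff₀ (by positivity)]
    linarith
  have haR : ‖a‖ ≤ R := by
    have h1 : (n : ℝ) * ‖a‖ ^ 2 ≤ n * R ^ 2 := by
      rw [ha2, hR2, hrr]
      nlinarith
    have h2 : ‖a‖ ^ 2 ≤ R ^ 2 := le_of_mul_le_mul_left h1 hnr
    exact (abs_le_of_sq_le_sq' h2 hR0.le).2
  have hGa : ‖G a‖ ≤ ρ ^ C * Mh / (n * R) ^ (C - D) := by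
    refine Complex.norm_le_of_forall_mem_frontier_norm_le (U := Metric.ball (0 : ℂ) R)
      Metric.isBounded_ball hGd.diffContOnCl ?_ ?_
    · intro z hz
      rw [frontier_ball _ hR0.ne'] at hz
      exact hbd z (by simpa using hz)
    · rw [closure_ball _ hR0.ne']
      simpa using haR
  have hsR : ‖s‖ ≤ (n * R) / (5 * r) := by
    have h1 : ‖s‖ ^ 2 ≤ ((n * R) / (5 * r)) ^ 2 := by
      have h2 : (n : ℝ) ^ 2 * R ^ 2 = n * (r ^ 2 * κ) := by
        rw [← hR2]; ring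
      have h3 : ((n * R) / (5 * r)) ^ 2 = n * κ / 25 := by
        rw [div_pow, mul_pow (n : ℝ) R, mul_pow 5 r, h2]
        field_simp
        norm_num
      rw [h3]
      exact hl
    exact (abs_le_of_sq_le_sq' h1 (by positivity)).2
  have hxa : h x = (n * a) ^ (C - D) * G a := by
    rw [← hhG]
    congr 1
    funext i
    exact (hxy i).symm
  have hna : (n : ℂ) * a = s := by
    rw [ha]; field_simp
  rw [hxa, hna, norm_mul, norm_pow]
  have hnR : 0 < (n : ℝ) * R := by positivity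
  have h5r : 0 < 5 * r := by positivity
  have e1 : ‖s‖ ^ (C - D) * ‖G a‖
      ≤ ((n * R) / (5 * r)) ^ (C - D) * (ρ ^ C * Mh / (n * R) ^ (C - D)) := by
    refine mul_le_mul (pow_le_pow_left₀ (norm_nonneg _) hsR _) hGa (norm_nonneg _) (by positivity)
  refine e1.trans ?_
  have e2 : ((n * R) / (5 * r)) ^ (C - D) * (ρ ^ C * Mh / (n * R) ^ (C - D))
      = (1 / 5) ^ (C - D) * r ^ D * Real.sqrt (1 + κ) ^ C * Mh := by
    have h1 : ρ ^ C = r ^ (C - D) * r ^ D * Real.sqrt (1 + κ) ^ C := by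
      rw [hρ, mul_pow, ← pow_add, Nat.sub_add_cancel hDC]
    rw [h1, div_pow, mul_pow 5 r, one_div, inv_pow]
    field_simp
  rw [e2]
  refine mul_le_mul_of_nonneg_right ?_ hMh
  have e3 : (1 / 5 : ℝ) ^ (C - D) ≤ Real.exp (-(3 / 2 * (κ * C))) := by
    have h1 : (1 / 5 : ℝ) ≤ Real.exp (-(3 / 2)) := by
      rw [Real.exp_neg, one_div]
      exact inv_anti₀ (Real.exp_pos _) exp_three_half
    refine (pow_le_pow_left₀ (by norm_num) h1 _).trans ?_
    rw [← Real.exp_nat_mul]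
    apply Real.exp_le_exp.2
    rw [Nat.cast_sub hDC]
    nlinarith
  have e4 : Real.sqrt (1 + κ) ^ C ≤ Real.exp (κ * C / 2) := by
    have h1 : Real.sqrt (1 + κ) ≤ Real.exp (κ / 2) := by
      rw [Real.sqrt_le_left (Real.exp_pos _).le, ← Real.exp_nat_mul]
      have := Real.add_one_le_exp κ
      have h2 : ((2 : ℕ) : ℝ) * (κ / 2) = κ := by push_cast; ring
      rw [h2]
      linarith
    refine (pow_le_pow_left₀ (Real.sqrt_nonneg _) h1 _).trans ?_
    rw [← Real.exp_nat_mul]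
    apply le_of_eq
    congr 1
    ring
  have e5 : r ^ D ≤ 1 := pow_le_one₀ hr0.le hr1
  calc (1 / 5 : ℝ) ^ (C - D) * r ^ D * Real.sqrt (1 + κ) ^ C
      ≤ Real.exp (-(3 / 2 * (κ * C))) * 1 * Real.exp (κ * C / 2) := by
        refine mul_le_mul (mul_le_mul e3 e5 (by positivity) (Real.exp_pos _).le) e4
          (by positivity) (by positivity)
    _ = Real.exp (-(κ * C)) := by
        rw [mul_one, ← Real.exp_add]
        congr 1
        ring

end Pool.Agent.Helper24.ZD
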