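import Pool.Agent.Helper90.ZD.Defs

/-!
Project ZD (MP_4ab349_nt): P5, the large sieve.
-/

open Finset

namespace Pool.Agent.Helper24.ZD

open Pool.Agent.Helper90.ZD

theorem geom_norm_le (u : ℂ) (hu : ‖u‖ = 1) (δ : ℝ) (hδ : 0 < δ) (h : δ ≤ ‖u - 1‖) (N : ℕ) :
    ‖∑ j ∈ Finset.range N, u ^ j‖ ≤ 2 / δ := by
  have h1 := geom_sum_mul u N
  have h2 : ‖∑ j ∈ Finset.range N, u ^ j‖ * ‖u - 1‖ ≤ 2 := by
    rw [← norm_mul, h1]
    refine (norm_sub_le _ _).trans ?_
    rw [norm_pow, hu, one_pow, norm_one]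
    norm_num
  rw [le_div_iff₀ hδ]
  refine le_trans ?_ h2
  exact mul_le_mul_of_nonneg_left h (norm_nonneg _)

/-- P5: large sieve. -/
theorem sieve {n M : ℕ} (hM : 0 < M) (z : Fin n → ℂ) (hz : ∀ i, ‖z i‖ = 1) (δ : ℝ)
    (hδ : 0 < δ) (hsep : ∀ i j, i ≠ j → δ ≤ ‖z i - z j‖)
    (hMδ : 4 * (n : ℝ) ≤ (M * δ) ^ 2) (x : Fin n → ℂ) :
    ∑ k ∈ Finset.Icc (-(M : ℤ)) M, ‖∑ i, z i ^ k * x i‖ ^ 2
      ≤ 4 * M * ∑ i, ‖x i‖ ^ 2 := by
  classical
  have hMr : (0 : ℝ) < M := by exact_mod_cast hM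
  set F : ℤ → ℝ := fun k => ‖∑ i, z i ^ k * x i‖ ^ 2 with hF
  have hF0 : ∀ k, 0 ≤ F k := fun k => by positivity
  set L : ℝ := ∑ k ∈ Finset.Icc (-(M : ℤ)) M, F k with hL
  set T : ℝ := ∑ m ∈ Finset.range M, ∑ j ∈ Finset.range (3 * M), F ((j : ℤ) - M - m) with hT
  have hzne : ∀ i, z i ≠ 0 := by
    intro i h
    have := hz i
    rw [h] at this
    simp at this
  -- step 1
  have h1 : (M : ℝ) * L ≤ T := by
    have h2 : ∀ m ∈ Finset.range M, L ≤ ∑ j ∈ Finset.range (3 * M), F ((j : ℤ) - M - m) := by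
      intro m hm
      have hm' := Finset.mem_range.1 hm
      have hinj : Set.InjOn (fun j : ℕ => (j : ℤ) - M - m) (Finset.range (3 * M) : Set ℕ) := by
        intro a _ b _ hab
        have : (a : ℤ) - M - m = (b : ℤ) - M - m := hab
        omega
      have h3 : ∑ j ∈ Finset.range (3 * M), F ((j : ℤ) - M - m)
          = ∑ k ∈ (Finset.range (3 * M)).image (fun j : ℕ => (j : ℤ) - M - m), F k := by
        rw [Finset.sum_image hinj]
      rw [h3, hL]
      refine Finset.sum_le_sum_of_subset_of_nonneg ?_ (fun k _ _ => hF0 k)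
      intro k hk
      rw [Finset.mem_Icc] at hk
      rw [Finset.mem_image]
      refine ⟨(k + M + m).toNat, Finset.mem_range.2 (by omega), by omega⟩
    calc (M : ℝ) * L = ∑ m ∈ Finset.range M, L := by
          rw [Finset.sum_const, Finset.card_range, nsmul_eq_mul]
      _ ≤ T := Finset.sum_le_sum h2
  -- step 2: expansion
  set u : Fin n → Fin n → ℂ := fun i l => z i * (z l)⁻¹ with hu
  have hune : ∀ i l, u i l ≠ 0 := fun i l => mul_ne_zero (hzne i) (inv_ne_zero (hzne l))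
  have hun : ∀ i l, ‖u i l‖ = 1 := by
    intro i l
    simp [hu, hz]
  have hFc : ∀ k : ℤ, (F k : ℂ) = ∑ i, ∑ l, (x i * (starRingEnd ℂ) (x l)) * u i l ^ k := by
    intro k
    have h3 : (F k : ℂ) = (∑ i, z i ^ k * x i) * (starRingEnd ℂ) (∑ i, z i ^ k * x i) := by
      rw [Complex.mul_conj, Complex.normSq_eq_norm_sq, hF]
    rw [h3, map_sum, Finset.sum_mul_sum]
    refine Finset.sum_congr rfl (fun i _ => Finset.sum_congr rfl (fun l _ => ?_))
    have h4 : (starRingEnd ℂ) (z l) = (z l)⁻¹ := by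
      rw [Complex.inv_def, Complex.normSq_eq_norm_sq, hz]
      simp
    rw [map_mul, map_zpow₀, h4]
    simp only [hu]
    rw [mul_zpow]
    ring
  have hTc : (T : ℂ) = ∑ i, ∑ l, (x i * (starRingEnd ℂ) (x l)) *
      ((∑ j ∈ Finset.range (3 * M), u i l ^ j) *
        ((u i l ^ M)⁻¹ * ∑ m ∈ Finset.range M, ((u i l)⁻¹) ^ m)) := by
    rw [hT]
    push_cast
    simp_rw [hFc]
    have e1 : ∀ m ∈ Finset.range M, ∑ j ∈ Finset.range (3 * M), ∑ i, ∑ l,
        (x i * (starRingEnd ℂ) (x l)) * u i l ^ ((j : ℤ) - M - m)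
        = ∑ i, ∑ l, (x i * (starRingEnd ℂ) (x l)) *
          ∑ j ∈ Finset.range (3 * M), u i l ^ ((j : ℤ) - M - m) := by
      intro m _
      rw [Finset.sum_comm]
      refine Finset.sum_congr rfl (fun i _ => ?_)
      rw [Finset.sum_comm]
      refine Finset.sum_congr rfl (fun l _ => ?_)
      rw [Finset.mul_sum]
    rw [Finset.sum_congr rfl e1, Finset.sum_comm]
    refine Finset.sum_congr rfl (fun i _ => ?_)
    rw [Finset.sum_comm]
    refine Finset.sum_congr rfl (fun l _ => ?_)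
    rw [← Finset.mul_sum]
    congr 1
    rw [Finset.mul_sum, Finset.mul_sum]
    refine Finset.sum_congr rfl (fun m _ => ?_)
    rw [Finset.sum_mul]
    refine Finset.sum_congr rfl (fun j _ => ?_)
    rw [zpow_sub₀ (hune i l), zpow_sub₀ (hune i l), zpow_natCast, zpow_natCast, zpow_natCast,
      inv_pow]
    field_simp
  -- step 3: bound of the kernel
  have hδ2 : (0 : ℝ) < δ ^ 2 := by positivity
  have hker : ∀ i l, ‖(∑ j ∈ Finset.range (3 * M), u i l ^ j) *
        ((u i l ^ M)⁻¹ * ∑ m ∈ Finset.range M, ((u i l)⁻¹) ^ m)‖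
      ≤ (if i = l then 3 * (M : ℝ) ^ 2 else 0) + 4 / δ ^ 2 := by
    intro i l
    rw [norm_mul, norm_mul, norm_inv, norm_pow, hun, one_pow, inv_one, one_mul]
    by_cases hil : i = l
    · rw [if_pos hil]
      have h5 : u i l = 1 := by
        simp only [hu, hil]
        exact mul_inv_cancel₀ (hzne l)
      rw [h5]
      simp
      have : (0 : ℝ) ≤ 4 / δ ^ 2 := by positivity
      nlinarith
    · rw [if_neg hil, zero_add]
      have h6 : ‖u i l - 1‖ = ‖z i - z l‖ := by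
        have : u i l - 1 = (z i - z l) * (z l)⁻¹ := by
          simp only [hu]
          rw [sub_mul, mul_inv_cancel₀ (hzne l)]
        rw [this, norm_mul, norm_inv, hz, inv_one, mul_one]
      have h7 : ‖(u i l)⁻¹ - 1‖ = ‖z i - z l‖ := by
        have : (u i l)⁻¹ - 1 = -((u i l - 1) * (u i l)⁻¹) := by
          rw [sub_mul, mul_inv_cancel₀ (hune i l)]
          ring
        rw [this, norm_neg, norm_mul, norm_inv, hun, inv_one, mul_one, h6]
      have h8 := geom_norm_le (u i l) (hun i l) δ hδ (by rw [h6]; exact hsep i l hil) (3 * M)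
      have h9 := geom_norm_le ((u i l)⁻¹) (by rw [norm_inv, hun, inv_one]) δ hδ
        (by rw [h7]; exact hsep i l hil) M
      calc _ ≤ (2 / δ) * (2 / δ) := mul_le_mul h8 h9 (norm_nonneg _) (by positivity)
        _ = 4 / δ ^ 2 := by field_simp; norm_num
  -- step 4
  have hT0 : 0 ≤ T := Finset.sum_nonneg (fun m _ => Finset.sum_nonneg (fun j _ => hF0 _))
  set S : ℝ := ∑ i, ‖x i‖ ^ 2 with hS
  have hS0 : 0 ≤ S := Finset.sum_nonneg (fun i _ => by positivity)
  have hTle : T ≤ 3 * (M : ℝ) ^ 2 * S + 4 / δ ^ 2 * (n * S) := by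
    have h10 : T = ‖(T : ℂ)‖ := by
      rw [Complex.norm_real, Real.norm_eq_abs, abs_of_nonneg hT0]
    rw [h10, hTc]
    have h11 : ∀ i : Fin n, ‖∑ l, (x i * (starRingEnd ℂ) (x l)) *
      ((∑ j ∈ Finset.range (3 * M), u i l ^ j) *
        ((u i l ^ M)⁻¹ * ∑ m ∈ Finset.range M, ((u i l)⁻¹) ^ m))‖
        ≤ 3 * (M : ℝ) ^ 2 * ‖x i‖ ^ 2 + 4 / δ ^ 2 * (‖x i‖ * ∑ l, ‖x l‖) := by
      intro i
      refine (norm_sum_le _ _).trans ?_
      have h12 : ∀ l ∈ (Finset.univ : Finset (Fin n)), ‖(x i * (starRingEnd ℂ) (x l)) *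
          ((∑ j ∈ Finset.range (3 * M), u i l ^ j) *
          ((u i l ^ M)⁻¹ * ∑ m ∈ Finset.range M, ((u i l)⁻¹) ^ m))‖
          ≤ (if i = l then 3 * (M : ℝ) ^ 2 * ‖x i‖ ^ 2 else 0) + 4 / δ ^ 2 * (‖x i‖ * ‖x l‖) := by
        intro l _
        rw [norm_mul, norm_mul, RCLike.norm_conj]
        refine (mul_le_mul_of_nonneg_left (hker i l) (by positivity)).trans ?_
        by_cases hil : i = l
        · rw [if_pos hil, if_pos hil, ← hil]
          apply le_of_eq
          ring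
        · rw [if_neg hil, if_neg hil]
          apply le_of_eq
          ring
      refine (Finset.sum_le_sum h12).trans ?_
      rw [Finset.sum_add_distrib, Finset.sum_ite_eq, if_pos (Finset.mem_univ i), Finset.mul_sum,
        Finset.mul_sum]
    refine (norm_sum_le _ _).trans ((Finset.sum_le_sum (fun i _ => h11 i)).trans ?_)
    rw [Finset.sum_add_distrib, ← Finset.mul_sum, ← Finset.mul_sum, ← Finset.sum_mul, ← hS]
    have h13 : (∑ i, ‖x i‖) * (∑ i, ‖x i‖) ≤ n * S := by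
      have := sq_sum_le_card_mul_sum_sq (s := (Finset.univ : Finset (Fin n))) (f := fun i => ‖x i‖)
      rw [Finset.card_univ, Fintype.card_fin] at this
      rw [← sq]
      exact this
    have h14 : (0 : ℝ) ≤ 4 / δ ^ 2 := by positivity
    have := mul_le_mul_of_nonneg_left h13 h14
    linarith
  have h15 : 4 / δ ^ 2 * (n * S) ≤ (M : ℝ) ^ 2 * S := by
    have h16 : 4 / δ ^ 2 * (n : ℝ) ≤ (M : ℝ) ^ 2 := by
      rw [div_mul_eq_mul_div, div_le_iff₀ hδ2]
      have : ((M : ℝ) * δ) ^ 2 = (M : ℝ) ^ 2 * δ ^ 2 := by ring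
      linarith
    have := mul_le_mul_of_nonneg_right h16 hS0
    linarith
  have h17 : (M : ℝ) * L ≤ M * (4 * M * S) := by
    have : (M : ℝ) * (4 * M * S) = 4 * (M : ℝ) ^ 2 * S := by ring
    rw [this]
    linarith
  exact le_of_mul_le_mul_left h17 hMr

end Pool.Agent.Helper24.ZD
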