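import Pool.Agent.Helper90.ZD.Defs

/-!
Project ZD (MP_4ab349_nt): the test polynomial, P6.
-/

open Finset

namespace Pool.Agent.Helper24.ZD

open Pool.Agent.Helper90.ZD

/-- coefficients of `z ^ a * (1 + z) ^ (2 M - a)` -/
noncomputable def ww (M a j : ℕ) : ℝ := if a ≤ j then (Nat.choose (2 * M - a) (j - a) : ℝ) else 0

theorem ww_step (M a j : ℕ) (ha : a ≤ 2 * M) (hj : j ≤ 2 * M) :
    ((j : ℝ) - M) * ww M a j = ((a : ℝ) - M) * ww M a j + (2 * (M : ℝ) - a) * ww M (a + 1) j := by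
  unfold ww
  by_cases h : a ≤ j
  · rw [if_pos h]
    rcases Nat.eq_or_lt_of_le h with h1 | h1
    · subst h1
      rw [if_neg (by omega)]
      ring
    · rw [if_pos (by omega)]
      have h2 : (2 * M - a) * Nat.choose (2 * M - (a + 1)) (j - (a + 1))
          = Nat.choose (2 * M - a) (j - a) * (j - a) := by
        have h3 := Nat.add_one_mul_choose_eq (2 * M - (a + 1)) (j - (a + 1))
        have h4 : 2 * M - (a + 1) + 1 = 2 * M - a := by omega
        have h5 : j - (a + 1) + 1 = j - a := by omega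
        rw [h4, h5] at h3
        exact h3
      have h6 : ((2 * (M : ℝ)) - a) * (Nat.choose (2 * M - (a + 1)) (j - (a + 1)) : ℝ)
          = (Nat.choose (2 * M - a) (j - a) : ℝ) * ((j : ℝ) - a) := by
        have h7 : (((2 * M - a : ℕ) : ℝ)) = 2 * (M : ℝ) - a := by
          rw [Nat.cast_sub ha]; push_cast; ring
        have h8 : (((j - a : ℕ) : ℝ)) = (j : ℝ) - a := by
          rw [Nat.cast_sub h]
        rw [← h7, ← h8]
        exact_mod_cast h2
      rw [h6]
      ring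
  · rw [if_neg h, if_neg (by omega)]
    ring

theorem rep_exists (M : ℕ) (E : Finset ℤ) (hE : ∀ l ∈ E, l ≠ 0) :
    ∃ α : ℕ → ℝ, (∀ j, j ≤ 2 * M → (Nat.choose (2 * M) j : ℝ) * ∏ l ∈ E, (1 - ((j : ℝ) - M) / (l : ℝ))
        = ∑ a ∈ Finset.range (2 * M + 1), α a * ww M a j) ∧
      ∑ a ∈ Finset.range (2 * M + 1), |α a| ≤ ∏ l ∈ E, (1 + 3 * (M : ℝ) / |(l : ℝ)|) := by
  classical
  induction E using Finset.induction_on with
  | empty =>
    refine ⟨fun a => if a = 0 then 1 else 0, ?_, ?_⟩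
    · intro j hj
      rw [Finset.sum_eq_single 0]
      · simp [ww]
      · intro b _ hb
        simp [hb]
      · intro h
        exact absurd (Finset.mem_range.2 (by omega)) h
    · rw [Finset.sum_eq_single 0]
      · simp
      · intro b _ hb
        simp [hb]
      · intro h
        exact absurd (Finset.mem_range.2 (by omega)) h
  | insert l E hl ih =>
    obtain ⟨α, h1, h2⟩ := ih (fun x hx => hE x (Finset.mem_insert_of_mem hx))
    have hl0 : l ≠ 0 := hE l (Finset.mem_insert_self _ _)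
    have hlr : (l : ℝ) ≠ 0 := by exact_mod_cast hl0
    have hla : 0 < |(l : ℝ)| := abs_pos.2 hlr
    set g : ℕ → ℝ := fun b => if b = 0 then 0 else α (b - 1) * ((2 * (M : ℝ) - ((b - 1 : ℕ) : ℝ)) / l)
      with hg
    refine ⟨fun b => α b * (1 - ((b : ℝ) - M) / l) - g b, ?_, ?_⟩
    · intro j hj
      rw [Finset.prod_insert hl]
      have e1 : (Nat.choose (2 * M) j : ℝ) * ((1 - ((j : ℝ) - M) / (l : ℝ)) *
          ∏ l ∈ E, (1 - ((j : ℝ) - M) / (l : ℝ)))
          = (1 - ((j : ℝ) - M) / (l : ℝ)) * ((Nat.choose (2 * M) j : ℝ) *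
            ∏ l ∈ E, (1 - ((j : ℝ) - M) / (l : ℝ))) := by ring
      rw [e1, h1 j hj, Finset.mul_sum]
      have e2 : ∀ a ∈ Finset.range (2 * M + 1),
          (1 - ((j : ℝ) - M) / (l : ℝ)) * (α a * ww M a j)
          = α a * (1 - ((a : ℝ) - M) / l) * ww M a j
            - α a * ((2 * (M : ℝ) - a) / l) * ww M (a + 1) j := by
        intro a ha
        have ha' : a ≤ 2 * M := by have := Finset.mem_range.1 ha; omega
        have h3 := ww_step M a j ha' hj
        have h4 : (1 - ((j : ℝ) - M) / (l : ℝ)) * (α a * ww M a j)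
            = α a * ww M a j - α a / l * (((j : ℝ) - M) * ww M a j) := by
          field_simp
        rw [h4, h3]
        field_simp
        ring
      rw [Finset.sum_congr rfl e2, Finset.sum_sub_distrib]
      have e3 : ∑ a ∈ Finset.range (2 * M + 1), α a * ((2 * (M : ℝ) - a) / l) * ww M (a + 1) j
          = ∑ b ∈ Finset.range (2 * M + 1), g b * ww M b j := by
        rw [Finset.sum_range_succ, Finset.sum_range_succ' (fun b => g b * ww M b j)]
        have e4 : α (2 * M) * ((2 * (M : ℝ) - ((2 * M : ℕ) : ℝ)) / l) * ww M (2 * M + 1) j = 0 := by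
          push_cast
          ring
        rw [e4]
        have e5 : g 0 * ww M 0 j = 0 := by simp [hg]
        rw [e5]
        congr 1
      rw [e3, ← Finset.sum_sub_distrib]
      refine Finset.sum_congr rfl (fun b _ => ?_)
      ring
    · rw [Finset.prod_insert hl]
      have e6 : ∑ b ∈ Finset.range (2 * M + 1), |α b * (1 - ((b : ℝ) - M) / l) - g b|
          ≤ ∑ b ∈ Finset.range (2 * M + 1), |α b| * (1 + |(b : ℝ) - M| / |(l : ℝ)|)
            + ∑ b ∈ Finset.range (2 * M + 1), |g b| := by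
        rw [← Finset.sum_add_distrib]
        refine Finset.sum_le_sum (fun b _ => ?_)
        refine (abs_sub _ _).trans ?_
        refine add_le_add ?_ le_rfl
        rw [abs_mul]
        refine mul_le_mul_of_nonneg_left ?_ (abs_nonneg _)
        refine (abs_sub _ _).trans ?_
        rw [abs_one, abs_div]
      have e7 : ∑ b ∈ Finset.range (2 * M + 1), |g b|
          = ∑ b ∈ Finset.range (2 * M + 1), |α b| * ((2 * (M : ℝ) - b) / |(l : ℝ)|) := by
        rw [Finset.sum_range_succ' (fun b => |g b|), Finset.sum_range_succ]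
        have e8 : |g 0| = 0 := by simp [hg]
        have e9 : |α (2 * M)| * ((2 * (M : ℝ) - ((2 * M : ℕ) : ℝ)) / |(l : ℝ)|) = 0 := by
          push_cast
          ring
        rw [e8, e9]
        congr 1
        refine Finset.sum_congr rfl (fun b hb => ?_)
        have hb' : b < 2 * M := Finset.mem_range.1 hb
        have hb'' : (b : ℝ) ≤ 2 * M := by exact_mod_cast hb'.le
        simp only [hg, Nat.add_sub_cancel, Nat.succ_ne_zero, if_false]
        rw [abs_mul, abs_div, abs_of_nonneg (by linarith : (0 : ℝ) ≤ 2 * (M : ℝ) - b)]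
      rw [e7, ← Finset.sum_add_distrib] at e6
      refine e6.trans ?_
      have e10 : ∀ b ∈ Finset.range (2 * M + 1),
          |α b| * (1 + |(b : ℝ) - M| / |(l : ℝ)|) + |α b| * ((2 * (M : ℝ) - b) / |(l : ℝ)|)
          ≤ (1 + 3 * (M : ℝ) / |(l : ℝ)|) * |α b| := by
        intro b hb
        have hb' : b < 2 * M + 1 := Finset.mem_range.1 hb
        have hb'' : (b : ℝ) ≤ 2 * M := by exact_mod_cast (Nat.lt_succ_iff.1 hb')
        have hb0 : (0 : ℝ) ≤ b := Nat.cast_nonneg b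
        have h5 : |(b : ℝ) - M| + (2 * (M : ℝ) - b) ≤ 3 * M := by
          rcases abs_cases ((b : ℝ) - M) with ⟨h, _⟩ | ⟨h, _⟩ <;> rw [h] <;> linarith
        have h6 : |α b| * (1 + |(b : ℝ) - M| / |(l : ℝ)|) + |α b| * ((2 * (M : ℝ) - b) / |(l : ℝ)|)
            = (1 + (|(b : ℝ) - M| + (2 * (M : ℝ) - b)) / |(l : ℝ)|) * |α b| := by
          field_simp
          ring
        rw [h6]
        refine mul_le_mul_of_nonneg_right ?_ (abs_nonneg _)
        have h7 := div_le_div_of_nonneg_right h5 hla.le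
        linarith
      refine (Finset.sum_le_sum e10).trans ?_
      rw [← Finset.mul_sum]
      refine mul_le_mul_of_nonneg_left h2 ?_
      positivity

theorem ww_sum (M a : ℕ) (ha : a ≤ 2 * M) (z : ℂ) :
    ∑ j ∈ Finset.range (2 * M + 1), (ww M a j : ℂ) * z ^ j = z ^ a * (1 + z) ^ (2 * M - a) := by
  have h1 : 2 * M + 1 = a + (2 * M - a + 1) := by omega
  rw [h1, Finset.sum_range_add]
  have h2 : ∑ j ∈ Finset.range a, (ww M a j : ℂ) * z ^ j = 0 := by
    refine Finset.sum_eq_zero (fun j hj => ?_)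
    have : ¬ a ≤ j := by have := Finset.mem_range.1 hj; omega
    simp [ww, this]
  rw [h2, zero_add, add_comm (1 : ℂ) z, add_pow, Finset.mul_sum]
  refine Finset.sum_congr rfl (fun j _ => ?_)
  have h3 : ww M a (a + j) = (Nat.choose (2 * M - a) j : ℝ) := by
    simp [ww]
  rw [h3, pow_add]
  push_cast
  ring

/-- reindexing of the sum over `[-M, M]` -/
theorem sum_Icc_shift {β : Type*} [AddCommMonoid β] (M : ℕ) (f : ℤ → β) :
    ∑ k ∈ Finset.Icc (-(M : ℤ)) M, f k = ∑ j ∈ Finset.range (2 * M + 1), f ((j : ℤ) - M) := by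
  symm
  refine Finset.sum_bij (fun j _ => (j : ℤ) - M) ?_ ?_ ?_ ?_
  · intro j hj
    have := Finset.mem_range.1 hj
    rw [Finset.mem_Icc]
    constructor <;> omega
  · intro a _ b _ h
    have : (a : ℤ) = b := by linarith
    exact_mod_cast this
  · intro k hk
    rw [Finset.mem_Icc] at hk
    refine ⟨(k + M).toNat, Finset.mem_range.2 (by omega), by omega⟩
  · intro j _
    rfl

theorem tc_shift (M : ℕ) (E : Finset ℤ) (j : ℕ) :
    tc M E ((j : ℤ) - M) = (Nat.choose (2 * M) j : ℝ) / 4 ^ M *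
      ∏ l ∈ E, (1 - ((j : ℝ) - M) / (l : ℝ)) := by
  unfold tc
  have h : ((M : ℤ) + ((j : ℤ) - M)).toNat = j := by
    have : (M : ℤ) + ((j : ℤ) - M) = j := by ring
    rw [this]; simp
  rw [h]
  push_cast
  rfl

/-- P6a -/
theorem test_small (M : ℕ) (E : Finset ℤ) (hE : ∀ l ∈ E, l ≠ 0) (ρ : ℝ) (hρ : 1 / 2 ≤ ρ)
    (z : ℂ) (hz : ‖z‖ = 1) (hz' : ‖1 + z‖ ≤ 2 * ρ) :
    ‖∑ k ∈ Finset.Icc (-(M : ℤ)) M, (tc M E k : ℂ) * z ^ k‖
      ≤ ρ ^ (2 * M) * ∏ l ∈ E, (1 + 3 * (M : ℝ) / |(l : ℝ)|) := by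
  obtain ⟨α, h1, h2⟩ := rep_exists M E hE
  have hz0 : z ≠ 0 := by
    intro h; rw [h] at hz; simp at hz
  rw [sum_Icc_shift]
  have e1 : ∑ j ∈ Finset.range (2 * M + 1), (tc M E ((j : ℤ) - M) : ℂ) * z ^ ((j : ℤ) - M)
      = (z ^ M)⁻¹ * ((4 ^ M)⁻¹ * ∑ a ∈ Finset.range (2 * M + 1),
          (α a : ℂ) * (z ^ a * (1 + z) ^ (2 * M - a))) := by
    have e2 : ∀ j ∈ Finset.range (2 * M + 1), (tc M E ((j : ℤ) - M) : ℂ) * z ^ ((j : ℤ) - M)
        = ∑ a ∈ Finset.range (2 * M + 1), (z ^ M)⁻¹ * ((4 ^ M)⁻¹ *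
          ((α a : ℂ) * ((ww M a j : ℂ) * z ^ j))) := by
      intro j hj
      have hj' : j ≤ 2 * M := by have := Finset.mem_range.1 hj; omega
      rw [tc_shift, zpow_sub₀ hz0, zpow_natCast, zpow_natCast]
      have e3 : (Nat.choose (2 * M) j : ℝ) / 4 ^ M * ∏ l ∈ E, (1 - ((j : ℝ) - M) / (l : ℝ))
          = (4 ^ M)⁻¹ * ∑ a ∈ Finset.range (2 * M + 1), α a * ww M a j := by
        rw [← h1 j hj']
        ring
      rw [e3]
      push_cast
      rw [← Finset.mul_sum, ← Finset.mul_sum]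
      have e4 : ∑ a ∈ Finset.range (2 * M + 1), (α a : ℂ) * ((ww M a j : ℂ) * z ^ j)
          = (∑ a ∈ Finset.range (2 * M + 1), (α a : ℂ) * (ww M a j : ℂ)) * z ^ j := by
        rw [Finset.sum_mul]
        refine Finset.sum_congr rfl (fun a _ => ?_)
        ring
      rw [e4]
      ring
    rw [Finset.sum_congr rfl e2, Finset.sum_comm, Finset.mul_sum, Finset.mul_sum]
    refine Finset.sum_congr rfl (fun a ha => ?_)
    have ha' : a ≤ 2 * M := by have := Finset.mem_range.1 ha; omega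
    rw [← ww_sum M a ha' z, Finset.mul_sum, Finset.mul_sum, Finset.mul_sum]
  rw [e1, norm_mul, norm_inv, norm_pow, hz, one_pow, inv_one, one_mul, norm_mul, norm_inv, norm_pow]
  have h4 : ‖(4 : ℂ)‖ = 4 := by simp
  rw [h4]
  have h5 : ‖∑ a ∈ Finset.range (2 * M + 1), (α a : ℂ) * (z ^ a * (1 + z) ^ (2 * M - a))‖
      ≤ ∑ a ∈ Finset.range (2 * M + 1), |α a| * (2 * ρ) ^ (2 * M) := by
    refine (norm_sum_le _ _).trans (Finset.sum_le_sum (fun a ha => ?_))
    have ha' : a ≤ 2 * M := by have := Finset.mem_range.1 ha; omega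
    rw [norm_mul, norm_mul, norm_pow, norm_pow, hz, one_pow, one_mul, Complex.norm_real,
      Real.norm_eq_abs]
    refine mul_le_mul_of_nonneg_left ?_ (abs_nonneg _)
    refine (pow_le_pow_left₀ (norm_nonneg _) hz' _).trans ?_
    exact pow_le_pow_right₀ (by linarith) (by omega)
  rw [← Finset.sum_mul] at h5
  have h6 : (4 : ℝ) ^ M ≠ 0 := by positivity
  calc (4 ^ M)⁻¹ * ‖∑ a ∈ Finset.range (2 * M + 1), (α a : ℂ) * (z ^ a * (1 + z) ^ (2 * M - a))‖
      ≤ (4 ^ M)⁻¹ * ((∑ a ∈ Finset.range (2 * M + 1), |α a|) * (2 * ρ) ^ (2 * M)) :=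
        mul_le_mul_of_nonneg_left h5 (by positivity)
    _ = ρ ^ (2 * M) * (∑ a ∈ Finset.range (2 * M + 1), |α a|) := by
        have h7 : (2 * ρ) ^ (2 * M) = 4 ^ M * ρ ^ (2 * M) := by
          rw [mul_pow, pow_mul]; norm_num
        rw [h7]
        field_simp
    _ ≤ ρ ^ (2 * M) * ∏ l ∈ E, (1 + 3 * (M : ℝ) / |(l : ℝ)|) :=
        mul_le_mul_of_nonneg_left h2 (by positivity)

/-- P6b -/
theorem test_sum (M : ℕ) (E : Finset ℤ) (hE : ∀ l ∈ E, l ≠ 0) :
    ∑ k ∈ Finset.Icc (-(M : ℤ)) M, |tc M E k| ≤ ∏ l ∈ E, (1 + (M : ℝ) / |(l : ℝ)|) := by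
  have h1 : ∀ k ∈ Finset.Icc (-(M : ℤ)) M, |tc M E k|
      ≤ (Nat.choose (2 * M) (M + k).toNat : ℝ) / 4 ^ M * ∏ l ∈ E, (1 + (M : ℝ) / |(l : ℝ)|) := by
    intro k hk
    rw [Finset.mem_Icc] at hk
    unfold tc
    rw [abs_mul, abs_of_nonneg (by positivity : (0 : ℝ) ≤ (Nat.choose (2 * M) (M + k).toNat : ℝ) / 4 ^ M),
      Finset.abs_prod]
    refine mul_le_mul_of_nonneg_left ?_ (by positivity)
    refine Finset.prod_le_prod (fun l _ => abs_nonneg _) (fun l hl => ?_)
    have hlr : (l : ℝ) ≠ 0 := by exact_mod_cast hE l hl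
    have hla : 0 < |(l : ℝ)| := abs_pos.2 hlr
    refine (abs_sub _ _).trans ?_
    rw [abs_one, abs_div]
    have hk' : |(k : ℝ)| ≤ M := by
      rw [abs_le]
      constructor
      · exact_mod_cast hk.1
      · exact_mod_cast hk.2
    have := div_le_div_of_nonneg_right hk' hla.le
    linarith
  refine (Finset.sum_le_sum h1).trans ?_
  rw [← Finset.sum_mul, sum_Icc_shift]
  have h2 : ∑ j ∈ Finset.range (2 * M + 1),
      (Nat.choose (2 * M) ((M : ℤ) + ((j : ℤ) - M)).toNat : ℝ) / 4 ^ M = 1 := by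
    have h3 : ∀ j ∈ Finset.range (2 * M + 1),
        (Nat.choose (2 * M) ((M : ℤ) + ((j : ℤ) - M)).toNat : ℝ) / 4 ^ M
        = (Nat.choose (2 * M) j : ℝ) / 4 ^ M := by
      intro j _
      have : ((M : ℤ) + ((j : ℤ) - M)).toNat = j := by
        have : (M : ℤ) + ((j : ℤ) - M) = j := by ring
        rw [this]; simp
      rw [this]
    rw [Finset.sum_congr rfl h3, ← Finset.sum_div]
    have h4 := Nat.sum_range_choose (2 * M)
    have h5 : ∑ j ∈ Finset.range (2 * M + 1), (Nat.choose (2 * M) j : ℝ) = 4 ^ M := by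
      have : (4 : ℝ) ^ M = ((2 ^ (2 * M) : ℕ) : ℝ) := by
        push_cast
        rw [pow_mul]; norm_num
      rw [this, ← h4]
      push_cast
      rfl
    rw [h5]
    field_simp
  rw [h2, one_mul]

/-- P6c -/
theorem tc_zero (M : ℕ) (E : Finset ℤ) : 1 / (2 * (M : ℝ) + 1) ≤ tc M E 0 := by
  have h1 : tc M E 0 = (Nat.centralBinom M : ℝ) / 4 ^ M := by
    unfold tc
    simp [Nat.centralBinom]
  rw [h1, div_le_div_iff₀ (by positivity) (by positivity), one_mul]
  have h2 : 4 ^ M ≤ (2 * M + 1) * Nat.centralBinom M := by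
    rcases Nat.eq_zero_or_pos M with h | h
    · subst h; simp
    · have := Nat.four_pow_le_two_mul_self_mul_centralBinom M h
      nlinarith [Nat.zero_le (Nat.centralBinom M)]
  have h3 : ((4 ^ M : ℕ) : ℝ) ≤ (((2 * M + 1) * Nat.centralBinom M : ℕ) : ℝ) := by exact_mod_cast h2
  push_cast at h3
  linarith

/-- P6d -/
theorem tc_mem (M : ℕ) (E : Finset ℤ) (l : ℤ) (hl : l ∈ E) (h0 : l ≠ 0) : tc M E l = 0 := by
  unfold tc
  have : ∏ l' ∈ E, (1 - (l : ℝ) / (l' : ℝ)) = 0 := by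
    refine Finset.prod_eq_zero hl ?_
    have : (l : ℝ) ≠ 0 := by exact_mod_cast h0
    rw [div_self this]; ring
  rw [this, mul_zero]

theorem factorial_le_prod (s : Finset ℕ) (hs : ∀ x ∈ s, 0 < x) :
    s.card.factorial ≤ ∏ x ∈ s, x := by
  classical
  induction s using Finset.induction_on_max with
  | empty => simp
  | insert a s h ih =>
    have ha : a ∉ s := fun h' => lt_irrefl _ (h a h')
    rw [Finset.card_insert_of_notMem ha, Finset.prod_insert ha, Nat.factorial_succ]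
    refine Nat.mul_le_mul ?_ (ih (fun x hx => hs x (Finset.mem_insert_of_mem hx)))
    have h1 : insert a s ⊆ Finset.Icc 1 a := by
      intro x hx
      rw [Finset.mem_Icc]
      refine ⟨hs x hx, ?_⟩
      rcases Finset.mem_insert.1 hx with h2 | h2
      · exact h2.le
      · exact (h x h2).le
    have h2 := Finset.card_le_card h1
    rw [Finset.card_insert_of_notMem ha] at h2
    simpa using h2

theorem prod_half (M : ℕ) (E : Finset ℤ) (hE : ∀ l ∈ E, l ≠ 0 ∧ |l| ≤ M)
    (hinj : Set.InjOn Int.natAbs (E : Set ℤ)) (θ : ℝ) (hθ : 0 < θ)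
    (hθ' : θ ≤ 1) (hc : (E.card : ℝ) ≤ θ * M) :
    ∏ l ∈ E, (1 + 3 * (M : ℝ) / |(l : ℝ)|)
      ≤ Real.exp (θ * (4 + Real.log (1 / θ)) * M) := by
  classical
  have hM0 : (0 : ℝ) ≤ M := Nat.cast_nonneg M
  set n := E.card with hn
  have h1 : ∏ l ∈ E, (1 + 3 * (M : ℝ) / |(l : ℝ)|) ≤ ∏ l ∈ E, ((4 * (M : ℝ)) / (l.natAbs : ℝ)) := by
    refine Finset.prod_le_prod (fun l _ => by positivity) (fun l hl => ?_)
    have hl0 := (hE l hl).1
    have hlr : (l : ℝ) ≠ 0 := by exact_mod_cast hl0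
    have hla : 0 < |(l : ℝ)| := abs_pos.2 hlr
    have hlM : |(l : ℝ)| ≤ M := by
      have := (hE l hl).2
      exact_mod_cast this
    have hna : (l.natAbs : ℝ) = |(l : ℝ)| := by
      rw [Nat.cast_natAbs]; push_cast; rfl
    rw [hna]
    have : (1 : ℝ) ≤ (M : ℝ) / |(l : ℝ)| := by
      rw [le_div_iff₀ hla]; linarith
    have h3 : (4 * (M : ℝ)) / |(l : ℝ)| = (M : ℝ) / |(l : ℝ)| + 3 * (M : ℝ) / |(l : ℝ)| := by ring
    linarith
  refine h1.trans ?_
  rw [Finset.prod_div_distrib, Finset.prod_const, ← hn]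
  have h2 : (n.factorial : ℝ) ≤ ∏ l ∈ E, (l.natAbs : ℝ) := by
    have h3 := factorial_le_prod (E.image Int.natAbs) (by
      intro x hx
      obtain ⟨l, hl, rfl⟩ := Finset.mem_image.1 hx
      exact Int.natAbs_pos.2 (hE l hl).1)
    rw [Finset.card_image_of_injOn hinj, Finset.prod_image hinj] at h3
    exact_mod_cast h3
  have hfp : (0 : ℝ) < n.factorial := by exact_mod_cast Nat.factorial_pos n
  have h4 : (4 * (M : ℝ)) ^ n / ∏ l ∈ E, (l.natAbs : ℝ) ≤ (4 * (M : ℝ)) ^ n / n.factorial :=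
    div_le_div_of_nonneg_left (by positivity) hfp h2
  refine h4.trans ?_
  have h5 : (4 * (M : ℝ)) ^ n / n.factorial = (1 / θ) ^ n * ((4 * M * θ) ^ n / n.factorial) := by
    rw [mul_pow (4 * (M : ℝ)) θ n, one_div, inv_pow]
    field_simp
  rw [h5]
  have h6 : (4 * M * θ) ^ n / n.factorial ≤ Real.exp (4 * M * θ) :=
    Real.pow_div_factorial_le_exp _ (by positivity) n
  have h7 : (1 / θ) ^ n = Real.exp (n * Real.log (1 / θ)) := by
    rw [mul_comm, Real.exp_mul, Real.exp_log (by positivity), Real.rpow_natCast]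
  have hlog : 0 ≤ Real.log (1 / θ) := Real.log_nonneg (by rw [le_div_iff₀ hθ]; linarith)
  calc (1 / θ) ^ n * ((4 * M * θ) ^ n / n.factorial)
      ≤ Real.exp (n * Real.log (1 / θ)) * Real.exp (4 * M * θ) := by
        rw [h7]
        exact mul_le_mul_of_nonneg_left h6 (Real.exp_pos _).le
    _ = Real.exp (n * Real.log (1 / θ) + 4 * M * θ) := by rw [Real.exp_add]
    _ ≤ Real.exp (θ * (4 + Real.log (1 / θ)) * M) := by
        apply Real.exp_le_exp.2
        have := mul_le_mul_of_nonneg_right hc hlog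
        nlinarith

/-- P6e -/
theorem prod_le (M : ℕ) (E : Finset ℤ) (hE : ∀ l ∈ E, l ≠ 0 ∧ |l| ≤ M) (θ : ℝ) (hθ : 0 < θ)
    (hθ' : θ ≤ 1) (hc : (E.card : ℝ) ≤ θ * M) :
    ∏ l ∈ E, (1 + 3 * (M : ℝ) / |(l : ℝ)|)
      ≤ Real.exp (2 * θ * (4 + Real.log (1 / θ)) * M) := by
  classical
  rw [← Finset.prod_filter_mul_prod_filter_not E (fun l => 0 < l)]
  have h1 : ∀ s ⊆ E, (s.card : ℝ) ≤ θ * M := by
    intro s hs
    refine le_trans ?_ hc
    exact_mod_cast Finset.card_le_card hs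
  have h2 := prod_half M (E.filter (fun l => 0 < l)) (fun l hl => hE l (Finset.mem_filter.1 hl).1)
    (by
      intro a ha b hb hab
      have ha' := (Finset.mem_filter.1 (Finset.mem_coe.1 ha)).2
      have hb' := (Finset.mem_filter.1 (Finset.mem_coe.1 hb)).2
      omega) θ hθ hθ' (h1 _ (Finset.filter_subset _ _))
  have h3 := prod_half M (E.filter (fun l => ¬ 0 < l)) (fun l hl => hE l (Finset.mem_filter.1 hl).1)
    (by
      intro a ha b hb hab
      have ha' := (Finset.mem_filter.1 (Finset.mem_coe.1 ha)).2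
      have hb' := (Finset.mem_filter.1 (Finset.mem_coe.1 hb)).2
      omega) θ hθ hθ' (h1 _ (Finset.filter_subset _ _))
  have h4 : Real.exp (2 * θ * (4 + Real.log (1 / θ)) * M)
      = Real.exp (θ * (4 + Real.log (1 / θ)) * M) * Real.exp (θ * (4 + Real.log (1 / θ)) * M) := by
    rw [← Real.exp_add]
    congr 1
    ring
  rw [h4]
  refine mul_le_mul h2 h3 ?_ (Real.exp_pos _).le
  exact Finset.prod_nonneg (fun l _ => by positivity)

end Pool.Agent.Helper24.ZD
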